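import Pool.Agent.Lib_helper64.TD.Defs
import Pool.Agent.Lib_helper74.CKF.Basic

/-!
# One NP-complete language: definitions (MP_675993_lc)

The paper proof is `ISO_Proof_helper74.md`.  The stages are those of `Lib_helper64/TD`; in one stage
the table is injective and its inverse is also part of the oracle.
-/

set_option autoImplicit false

namespace Pool.Agent.TD.IS

open Pool.Agent.CK

/-! ## Local operators -/

/-- `L O x` depends only on the answers of `O` to the strings of length at most `(|x| + 2) ^ k`. -/
def LocalWith (k : ℕ) (L : Lang → Lang) : Prop :=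
  ∀ (x : List Bool) (O O' : Lang),
    (∀ w : List Bool, w.length ≤ (x.length + 2) ^ k → O w = O' w) → L O x = L O' x

/-- Polynomially local operators: whether `x` is in the language `L O` depends only on the part of
the oracle `O` up to a length that is polynomial in `|x|`. -/
def PolyLocal (L : Lang → Lang) : Prop := ∃ k, LocalWith k L

/-- The languages that are considered: those in `NP^O` and the languages `F i O`. -/
def Cls (F : ℕ → Lang → Lang) (O A : Lang) : Prop := InNP O A ∨ ∃ i, F i O = A

/-- remove a prefix `1^a 0` -/
def strip : Str → Str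
  | [] => []
  | false :: w => w
  | true :: w => strip w

open Classical in
/-- enumeration of the operators -/
noncomputable def EL0 (F : ℕ → Lang → Lang) (n : ℕ) : Lang → Lang :=
  if n.unpair.1 = 0 then NL n.unpair.2
  else if LocalWith n.unpair.2.unpair.2 (F n.unpair.2.unpair.1) then F n.unpair.2.unpair.1
  else fun _ _ => false

/-- enumeration of the operators, also composed with `strip` -/
noncomputable def EL (F : ℕ → Lang → Lang) (n : ℕ) (O : Lang) : Lang := fun x =>
  EL0 F n.unpair.2 O (if n.unpair.1 = 0 then x else strip x)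

/-! ## Tables with inverse questions -/

/-- Positions of a stage: `dir z i` is position `i` of the entry `z`; `inv l q i` is position `i` of
the answer to the question which entry of length `l` has the value `q`. -/
inductive PosI (Zt Qt ι : Type) : Type
  | dir (z : Zt) (i : ι)
  | inv (l : ℕ) (q : Qt) (i : ι)

/-- The data of a stage: positions, lengths of the entries, reading of values, reading of inverse
answers. -/
structure Stg (Zt Qt ι : Type) : Type where
  ps : Str → Option (PosI Zt Qt ι)
  ln : Zt → ℕ
  rd : Qt → ι → Bool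
  rz : Option Zt → ι → Bool

open Classical in
/-- the unique element with property `P`, if there is exactly one -/
noncomputable def uq {α : Type} (P : α → Prop) : Option α :=
  if h : ∃! z, P z then some h.choose else none

section sim

variable {β Zt Qt ι : Type} [DecidableEq Zt]

/-- The oracle `O` with the table `T` and its inverse written into it. -/
noncomputable def patchI (G : Stg Zt Qt ι) (O : Lang) (T : Zt → Qt) : Lang := fun w =>
  match G.ps w with
  | none => O w
  | some (PosI.dir z i) => G.rd (T z) i
  | some (PosI.inv l q i) => G.rz (uq fun z => G.ln z = l ∧ T z = q) i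

/-- Simulation of the tree without the table: `ρ` is the list of the entries known so far, new
entries are taken from the list `r` (`d0` is the value if the list is too short); inverse questions
are answered from the memory `ρ`. -/
noncomputable def simI (G : Stg Zt Qt ι) (d0 : β) :
    DT β → List (Zt × Qt) → List Qt → DT β
  | DT.leaf b, _, _ => DT.leaf b
  | DT.node w n0 n1, ρ, r => match G.ps w with
    | none => DT.node w (simI G d0 n0 ρ r) (simI G d0 n1 ρ r)
    | some (PosI.dir z i) => match ρ.lookup z with
      | some q => if G.rd q i = true then simI G d0 n1 ρ r else simI G d0 n0 ρ r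
      | none => match r with
        | [] => DT.leaf d0
        | q :: r => if G.rd q i = true then simI G d0 n1 ((z, q) :: ρ) r
            else simI G d0 n0 ((z, q) :: ρ) r
    | some (PosI.inv l q i) =>
      if G.rz (uq fun z => G.ln z = l ∧ ρ.lookup z = some q) i = true
      then simI G d0 n1 ρ r else simI G d0 n0 ρ r

/-- Run with memory: direct questions are answered by the table `T`, inverse questions from the
memory `ρ` of the entries that are known or have been asked so far. -/
noncomputable def evM (G : Stg Zt Qt ι) (T : Zt → Qt) : DT β → List (Zt × Qt) → DT β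
  | DT.leaf b, _ => DT.leaf b
  | DT.node w n0 n1, ρ => match G.ps w with
    | none => DT.node w (evM G T n0 ρ) (evM G T n1 ρ)
    | some (PosI.dir z i) => match ρ.lookup z with
      | some q => if G.rd q i = true then evM G T n1 ρ else evM G T n0 ρ
      | none => if G.rd (T z) i = true then evM G T n1 ((z, T z) :: ρ)
            else evM G T n0 ((z, T z) :: ρ)
    | some (PosI.inv l q i) =>
      if G.rz (uq fun z => G.ln z = l ∧ ρ.lookup z = some q) i = true
      then evM G T n1 ρ else evM G T n0 ρ

end sim

/-! ## The stage `k` -/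

/-- code of an inverse question -/
def icode (l : ℕ) (q : Str) : Str := ones l ++ false :: q

/-- decoding of inverse questions -/
def idec : Str → Option (ℕ × Str)
  | [] => none
  | false :: q => some (0, q)
  | true :: w => (idec w).map fun p => (p.1 + 1, p.2)

/-- the inverse questions of the stage -/
def ISet (k : ℕ) : Set Str :=
  {w | ∃ l q, idec w = some (l, q) ∧ (sm k ≤ l + 2 ∧ l + 2 < sM k) ∧
    sM k ≤ q.length ∧ q.length ≤ qb k}

open Classical in
/-- positions of the stage -/
noncomputable def posK (k : ℕ) (w : Str) : Option (PosI (Z k) (Q k) (ℕ × Bool)) :=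
  match tdec w with
  | none => none
  | some p =>
    if h : p.1.1 = se k ∧ p.1.2 ∈ ZSet k then some (PosI.dir ⟨p.1.2, h.2⟩ p.2)
    else if h : p.1.1 = se k + 1 ∧ p.1.2 ∈ ISet k then
      some (PosI.inv h.2.choose ⟨h.2.choose_spec.choose, h.2.choose_spec.choose_spec.2.2.2⟩ p.2)
    else none

/-- the string of an inverse answer -/
def zs {k : ℕ} : Option (Z k) → Str
  | none => []
  | some z => z.1

/-- the data of the stage `k` -/
noncomputable def stg (k : ℕ) : Stg (Z k) (Q k) (ℕ × Bool) where
  ps := posK k
  ln z := z.1.length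
  rd q i := bit q.1 i
  rz o i := bit (zs o) i

open Classical in
/-- write the table `T` of stage `k` and its inverse -/
noncomputable def updI (Tab : ℕ → Str → Str) (k : ℕ) (T : Z k → Q k) : ℕ → Str → Str := fun e z =>
  if h : e = se k ∧ z ∈ ZSet k then (T ⟨z, h.2⟩).1
  else if e = se k + 1 ∧ z ∈ ISet k then
    zs (uq fun y : Z k => ∃ l q, idec z = some (l, q) ∧ y.1.length = l ∧ (T y).1 = q)
  else Tab e z

/-! ## Reductions with advice -/

/-- the `i`-th program with advice `w` -/
def PLW (i : ℕ) (w : Str) (O : Lang) : Lang := fun x =>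
  accB O (prog i) x w ((x.length + 2) ^ ex i)

/-- The decision tree of the `i`-th program with advice `w`. -/
def PTW (i : ℕ) (w x : Str) : DT Bool :=
  (runTree ((x.length + 2) ^ ex i) ([prog i], init x w)).map fun cf =>
    cf.1.isEmpty && ((cf.2 0).head? == some true)

/-- find the preimage by means of the `i`-th Turing reduction of `VV`, with advice `w` -/
def invTreeW (i : ℕ) (w : Str) (n : ℕ) (x : Str) : DT Str :=
  seqT ((List.range n).map fun k => PTW i w (x ++ unitv n k))

/-- the Turing reduction with a suitable advice is correct on the relevant strings of the level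
`sn k` -/
def CorrW (F : ℕ → Lang → Lang) (S : Sec) (k : ℕ) (O : Lang) : Prop :=
  ∃ w : Str, w.length ≤ (3 * sn k + 2) ^ sj k ∧ ∀ x : X (2 * sn k), ∀ i < sn k,
    PLW (iM (sj k)) w (join O (EL F (iC (sj k)) O)) (x.1 ++ unitv (sn k) i) =
      VV S (x.1 ++ unitv (sn k) i)

/-! ## Thresholds with exceptions -/

/-- Answers by a threshold of trees, with a list `E` of exceptions. -/
def thrX {m : ℕ} (l : List ({q : Str // q.length ≤ m} → DT Bool)) (θ : ℕ)
    (E : List (Str × Bool)) (w : Str) : DT Bool :=
  match E.lookup w with
  | some b => DT.leaf b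
  | none => if h : w.length ≤ m then DT.thr (l.map fun t => t ⟨w, h⟩) θ else DT.leaf false

/-! ## Adversaries -/

/-- Simulations. -/
def SimI (k n : ℕ) (Fm : Set (X (2 * n) → DT Str)) : Set (X (2 * n) → DT Str) :=
  {A' | ∃ A ∈ Fm, ∃ ρ : List (Z k × Q k), ρ.length ≤ ss k n ∧ ∃ r : List (Q k),
    r.length = dd n ∧ A' = fun x => simI (stg k) [] (A x) ρ r}

/-- the tree of a test -/
noncomputable def treeI {k : ℕ} (t : Tst k) (q : Q k) : DT Bool :=
  (simI (stg k) [] t.τ t.ρ (t.pre ++ q :: t.post)).map fun y => y == t.b

/-- inverse of the hard core parameter -/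
def NI (k : ℕ) : ℕ := 8 * dd (3 * sM k) * 2 ^ (Lam (3 * sM k) + 2 * KK (3 * sM k))
/-- bound for the number of tests -/
def lenI (k : ℕ) : ℕ := 4 * (NI k) ^ 2 * (2 * (qb k + 1) + 1)
/-- bound for the number of exceptions -/
def excI (k : ℕ) : ℕ := 2 ^ (8 * sM k + 5)

/-- The reduction with its questions answered by a threshold of tests and a list of exceptions. -/
def CmpI (n0 k : ℕ) (Fm : Fam) (n : ℕ) : Set (X (2 * n) → DT Str) :=
  {A' | n = sn k ∧ ∃ l : List (Tst k), l.length ≤ lenI k ∧ (∀ t ∈ l, TstOK n0 k Fm t) ∧
    ∃ θ ≤ l.length + 1, ∃ E : List (Str × Bool), E.length ≤ excI k ∧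
      (∀ p ∈ E, p.1.length ≤ qb k) ∧ ∃ w : Str, w.length ≤ (3 * sn k + 2) ^ sj k ∧
      A' = fun x => DT.tr (thrX (l.map treeI) θ E) (invTreeW (iM (sj k)) w n x.1)}

open Classical in
/-- The derived family. -/
noncomputable def NextI (t0 : ℕ → ℕ) (n0 k : ℕ) (Fm : Fam) : Fam := fun n =>
  if Act t0 k then (if k < KK n then SimI k n (Fm n) else Fm n) ∪ CmpI n0 k Fm n else Fm n

/-- the families at the stages `top - r` -/
noncomputable def ClI (t0 : ℕ → ℕ) (n0 : ℕ) (fin : Fam) (top : ℕ) : ℕ → Fam
  | 0 => fin
  | r + 1 => NextI t0 n0 (top - (r + 1)) (ClI t0 n0 fin top r)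

/-! ## Goals of the stages -/

/-- the inverse of the table that is written in `Tab` -/
noncomputable def invTab (Tab : ℕ → Str → Str) (k : ℕ) (w : Str) : Str :=
  zs (uq fun y : Z k => ∃ l q, idec w = some (l, q) ∧ y.1.length = l ∧ Tab (se k) y.1 = q)

/-- what the table of stage `k` has to do -/
def GoalI (F : ℕ → Lang → Lang) (S : Sec) (k : ℕ) (O : Lang) (Tab : ℕ → Str → Str) : Prop :=
  (∀ z ∈ ZSet k, (Tab (se k) z).length ≤ qb k) ∧
  (∀ w ∈ ISet k, Tab (se k + 1) w = invTab Tab k w) ∧
  (CorrW F S k O → ∀ z ∈ ZSet k, EL F (iC (sj k)) O (Tab (se k) z) = EL F (iN (sj k)) O z ∧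
    sM k ≤ (Tab (se k) z).length ∧
    ∀ z' : Str, z'.length + 2 < sM k → Tab (se k) z' = Tab (se k) z → z' = z)

/-- numerical conditions for an active stage -/
structure NumI (n0 k : ℕ) : Prop where
  /-- level `sn k` is protected and stage `k` is relevant for it -/
  hn0 : n0 ≤ sn k
  hK : k < KK (sn k)
  /-- depth and lengths of the inversion tree with tests -/
  hdepth : sn k * ((3 * sn k + 2) ^ (sj k) * (lenI k * dd (3 * sM k) + 1)) ≤ dd (sn k)
  hlen : qb k ≤ dd (sn k)
  hdd : dd (3 * sM k) ≤ dd (sn k)
  /-- number of derived adversaries -/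
  hcard : (lenI k + 2) * 2 ^ (2 * Lam (3 * sM k) + aa 0 (3 * sM k) + 8) + lenI k + 2 +
    (excI k + 1) * (qb k + 4) ≤ 2 ^ (sn k / 3)
  /-- probability of a hit of an inverse question -/
  heps : NI k ≤ 2 ^ (3 * sM k)

/-! ## Notions of the theorem -/

/-- `A` and `B` are isomorphic by a bijection `h` of the strings such that `h` and its inverse `g`
are computable in polynomial time with oracle `O`. -/
def PIso (O A B : Lang) : Prop :=
  ∃ h g : List Bool → List Bool, InFP O h ∧ InFP O g ∧ (∀ x, g (h x) = x) ∧ (∀ y, h (g y) = y) ∧
    ∀ x, A x = B (h x)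

/-- `A` is reducible to `B` by a Turing reduction with running time and advice of polynomial
length, relative to `O` (the advice `w n` is given on stack `1`). -/
def NonuniformTuringReducible (O A B : Lang) : Prop :=
  ∃ (c : Cmd) (k : ℕ) (w : ℕ → List Bool), (∀ n, (w n).length ≤ (n + 2) ^ k) ∧
    ∀ x : List Bool, Halts (join O B) c x (w x.length) ((x.length + 2) ^ k) ∧
      (Accepts (join O B) c x (w x.length) ((x.length + 2) ^ k) ↔ A x = true)

/-- the part of the oracle up to length `m` -/
def trunc (m : ℕ) (O : Lang) : Lang := fun w => decide (w.length ≤ m) && O w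

/-- `A` is decided in exponential time with questions of polynomial length to `O`: for a program
`c` and a `k`, on the input `x` the program runs for at most `2 ^ ((|x| + 2) ^ k)` steps, and only
the strings of length at most `(|x| + 2) ^ k` are answered by `O` (the others get the answer `0`).
This class contains `PSPACE^O`, `PP^O` and the polynomial hierarchy relative to `O`. -/
def InEXPpoly (O A : Lang) : Prop :=
  ∃ (c : Cmd) (k : ℕ), ∀ x : List Bool,
    Halts (trunc ((x.length + 2) ^ k) O) c x [] (2 ^ (x.length + 2) ^ k) ∧
    (Accepts (trunc ((x.length + 2) ^ k) O) c x [] (2 ^ (x.length + 2) ^ k) ↔ A x = true)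

/-- `A` is reducible to `B` by a length-increasing function `f` with an inverse `g`: `g y = 1x` if
`y = f x`, and `g y` is empty if `y` is not a value of `f`. -/
def RedI (O A B : Lang) : Prop :=
  ∃ f g : List Bool → List Bool, InFP O f ∧ InFP O g ∧ (∀ x, A x = B (f x)) ∧
    (∀ x, x.length < (f x).length) ∧ (∀ x, g (f x) = true :: x) ∧
    ∀ y, (∀ x, f x ≠ y) → g y = []

end Pool.Agent.TD.IS
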