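import Pool.Agent.Lib_helper64.TDF.Main
import Pool.Agent.Lib_helper74.IS.Blk.A
import Pool.Agent.Lib_helper74.IS.Blk.B
import Pool.Agent.Lib_helper74.IS.Blk.B2
import Pool.Agent.Lib_helper74.IS.Blk.C
import Pool.Agent.Lib_helper74.IS.Blk.D
import Pool.Agent.Lib_helper74.IS.Blk.F
import Pool.Agent.Lib_helper74.IS.Blk.G
import Pool.Agent.Lib_helper74.IS.Blk.H
import Pool.Agent.Lib_helper74.IS.Blk.K1
import Pool.Agent.Lib_helper74.IS.Blk.K2
import Pool.Agent.Lib_helper74.IS.Blk.N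
import Pool.Agent.Lib_helper74.IS.Blk.O
import Pool.Agent.Lib_helper74.IS.Blk.P
import Pool.Agent.Lib_helper74.IS.Blk.R2
import Pool.Agent.Lib_helper74.IS.Blk.R3
import Pool.Agent.Lib_helper74.IS.Blk.S
import Pool.Agent.Lib_helper74.IS.Blk.T
import Pool.Agent.Lib_helper74.IS.Blk.U1
import Pool.Agent.Lib_helper74.IS.Blk.U2
import Pool.Agent.Lib_helper74.IS.Blk.W
import Pool.Agent.Lib_helper74.IS.Blk.X
import Pool.Agent.Lib_helper74.IS.Blk.Y

/-!
# One complete language for each class: all the blocks together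
-/
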