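import Pool.Agent.Lib_helper74.IS.Iter

/-!
# The final theorem
-/

set_option autoImplicit false

namespace Pool.Agent.TD.IS

open Pool.Agent.CK

/-- All pairs are reducible with inverse. -/
theorem redI_of_goals {F : ℕ → Lang → Lang} (hF : ∀ i, PolyLocal (F i)) {S : Sec} {Tab : ℕ → Str → Str} (t0 : ℕ → ℕ)
    (hlen : ∀ e z, (Tab e z).length ≤ alen e z)
    (hgoal : ∀ k, Act t0 k → GoalI F S k (orc S Tab) Tab) {A C : Lang}
    (hC : Cls F (orc S Tab) C) (hT : NonuniformTuringReducible (orc S Tab) (VV S) C)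
    (hA : Cls F (orc S Tab) A) : RedI (orc S Tab) A C := by
  obtain ⟨e, m0, h6, h1, h2, h3, h4⟩ := goals_facts hF t0 hgoal hC hT hA
  refine redI_abs (Te := Tab e) (Ti := Tab (e + 1)) (col_read S Tab hlen e h6)
    (col_read S Tab hlen (e + 1) (by omega)) m0 h1 h2 h3 ?_
  intro z
  have hl : m0 ≤ (ones m0 ++ false :: z).length := by
    simp [ones]
  rw [h4 _ hl, strip_ones]

/-- The exponential time operators with questions of polynomial length. -/
def XP (i : ℕ) (O : Lang) : Lang := fun x =>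
  accB (trunc ((x.length + 2) ^ ex i) O) (prog i) x [] (2 ^ (x.length + 2) ^ ex i)

theorem XP_local (i : ℕ) : PolyLocal (XP i) := by
  refine ⟨ex i, fun x O O' h => ?_⟩
  have e : trunc ((x.length + 2) ^ ex i) O = trunc ((x.length + 2) ^ ex i) O' := by
    funext w
    unfold trunc
    by_cases hw : w.length ≤ (x.length + 2) ^ ex i
    · rw [h w hw]
    · simp [hw]
  unfold XP
  rw [e]

theorem exists_XP {O A : Lang} (h : InEXPpoly O A) : ∃ i, XP i O = A := by
  obtain ⟨c, k, hck⟩ := h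
  refine ⟨Nat.pair (Encodable.encode c) k, ?_⟩
  funext x
  unfold XP
  rw [enum_prog, enum_ex, Bool.eq_iff_iff]
  have := (hck x).2
  rw [← this]
  unfold accB Accepts
  simp [List.isEmpty_iff]

/-- Trapdoor permutations, and all complete languages are isomorphic. -/
theorem main_ISO (F : ℕ → Lang → Lang) (hF : ∀ i, PolyLocal (F i)) :
    ∃ (O V : Lang) (G K H : List Bool → List Bool),
    TrapdoorPermutations O G K H ∧
    Secure O G K (fun n => 2 ^ (n / (Nat.log 2 n) ^ 3)) ∧
    InUP O V ∧ InUP O (fun x => !V x) ∧ ¬ InP O V ∧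
    (∀ A, InNP O A ∨ InEXPpoly O A ∨ (∃ i, F i O = A) → ManyOneReducible O A V) ∧
    (∀ C C', (InNP O C ∨ InEXPpoly O C ∨ ∃ i, F i O = C) →
      (InNP O C' ∨ InEXPpoly O C' ∨ ∃ i, F i O = C') →
      NonuniformTuringReducible O V C → NonuniformTuringReducible O V C' → PIso O C C') ∧
    ∀ C C', TuringComplete O C → TuringComplete O C' → PIso O C C' := by
  set F' : ℕ → Lang → Lang := fun i => if i.unpair.1 = 0 then F i.unpair.2 else XP i.unpair.2
    with hF'
  have hF'' : ∀ i, PolyLocal (F' i) := by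
    intro i
    simp only [hF']
    split_ifs
    · exact hF _
    · exact XP_local _
  have hcls : ∀ O A, (InNP O A ∨ InEXPpoly O A ∨ ∃ i, F i O = A) → Cls F' O A := by
    rintro O A (h | h | ⟨i, hi⟩)
    · exact Or.inl h
    · obtain ⟨i, hi⟩ := exists_XP h
      refine Or.inr ⟨Nat.pair 1 i, ?_⟩
      simp only [hF', Nat.unpair_pair, one_ne_zero, if_false]
      exact hi
    · refine Or.inr ⟨Nat.pair 0 i, ?_⟩
      simp only [hF', Nat.unpair_pair, if_true]
      exact hi
  obtain ⟨t0, n0, S, Tab, hlen, hgoal, hsec⟩ := goals_allI F'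
  have hNP := inNP_VV S Tab
  have hS : Secure (orc S Tab) (GG S) (FF S) (fun n => 2 ^ (n / (Nat.log 2 n) ^ 3)) := by
    apply secure_of
    intro c
    filter_upwards [Filter.eventually_ge_atTop n0,
      Filter.eventually_ge_atTop (Encodable.encode c)] with n hn hc w hw t ht
    exact sec_program (hsec n hn) c hc w hw t ht
  have hred := fun {A C : Lang} => redI_of_goals (A := A) (C := C) hF'' t0 hlen hgoal
  have hiso : ∀ C C', (InNP (orc S Tab) C ∨ InEXPpoly (orc S Tab) C ∨ ∃ i, F i (orc S Tab) = C) →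
      (InNP (orc S Tab) C' ∨ InEXPpoly (orc S Tab) C' ∨ ∃ i, F i (orc S Tab) = C') →
      NonuniformTuringReducible (orc S Tab) (VV S) C →
      NonuniformTuringReducible (orc S Tab) (VV S) C' → PIso (orc S Tab) C C' :=
    fun C C' hC hC' h h' => iso_of_redI (hred (hcls _ _ hC') h' (hcls _ _ hC))
      (hred (hcls _ _ hC) h (hcls _ _ hC'))
  refine ⟨orc S Tab, VV S, GG S, FF S, HH S, tdp S Tab, hS, inUP_VV S Tab, inUP_compl_VV S Tab,
    not_inP_VV S Tab hS, fun A hA => ?_, hiso, fun C C' hC hC' => ?_⟩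
  · exact manyOne_of_redI (hred (Or.inl hNP) (nonuniform_of_turing (main_refl _ _)) (hcls _ _ hA))
  · exact hiso C C' (Or.inl hC.1) (Or.inl hC'.1) (nonuniform_of_turing (hC.2 _ hNP))
      (nonuniform_of_turing (hC'.2 _ hNP))

end Pool.Agent.TD.IS
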