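import Pool.Agent.Lib_helper74.IS.Step

/-!
# The stages one after the other
-/

set_option autoImplicit false

namespace Pool.Agent.TD.IS

open Pool.Agent.CK

theorem simI_bounds {k n : ℕ} {Fm : Set (X (2 * n) → DT Str)}
    (hF : ∀ A ∈ Fm, ∀ x, (A x).depth ≤ dd n ∧ (A x).AllQ fun w => w.length ≤ dd n) :
    ∀ A ∈ SimI k n Fm, ∀ x, (A x).depth ≤ dd n ∧ (A x).AllQ fun w => w.length ≤ dd n := by
  rintro A' ⟨A, hA, ρ, -, r, -, rfl⟩ x
  exact ⟨(depth_simI _ _ _ _ _).trans (hF A hA x).1, allQ_simI _ _ _ _ _ _ (hF A hA x).2⟩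

theorem bdd_nextI {t0 : ℕ → ℕ} {n0 k : ℕ} {Fm : Fam} (h16 : 16 ≤ n0)
    (hK : Act t0 k → NumI n0 k) (hF : Bdd n0 (k + 1) Fm) : Bdd n0 k (NextI t0 n0 k Fm) := by
  intro n hn
  obtain ⟨h1, h2, h3⟩ := hF n hn
  by_cases hact : Act t0 k
  · have hnum := hK hact
    have h5 : 5 ≤ sj k := hact.1
    have h2' : 2 * sj k ≤ su k := hact.2.1
    have hcmp := card_cmpI n0 k Fm h16 h5 h2' hnum hF n
    have hdep := cmpI_depth n0 k Fm h16 hnum hF n
    by_cases hk : k < KK n
    · have hsim := card_simI k n (Fm n) h5 h2' hk ⟨h1, h2⟩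
      have e : NextI t0 n0 k Fm n = SimI k n (Fm n) ∪ CmpI n0 k Fm n := by
        unfold NextI; rw [if_pos hact, if_pos hk]
      rw [e]
      have hle : n / 3 ≤ aa (k + 1) n + 2 * Lam n + 4 := by unfold aa; omega
      have hu := card_union hsim (card_mono hcmp le_rfl
        (Nat.pow_le_pow_right (by norm_num) hle))
      have hb : CardBd (SimI k n (Fm n) ∪ CmpI n0 k Fm n) (2 ^ aa k n) := by
        refine card_mono hu le_rfl ?_
        have h4 : 2 ^ (aa (k + 1) n + 2 * Lam n + 4) + 1 ≤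
            2 ^ (aa (k + 1) n + 2 * Lam n + 4 + 1) := by
          rw [pow_succ 2 (aa (k + 1) n + 2 * Lam n + 4)]
          have := Nat.one_le_two_pow (n := aa (k + 1) n + 2 * Lam n + 4)
          omega
        refine h4.trans (Nat.pow_le_pow_right (by norm_num) ?_)
        rw [aa_step hk]; omega
      refine ⟨hb.1, hb.2, ?_⟩
      rintro A (hA | hA) x
      · exact simI_bounds h3 A hA x
      · exact hdep A hA x
    · have hk' : KK n ≤ k := not_lt.1 hk
      have e : NextI t0 n0 k Fm n = Fm n ∪ CmpI n0 k Fm n := by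
        unfold NextI; rw [if_pos hact, if_neg hk]
      have hemp : CmpI n0 k Fm n = ∅ := by
        apply Set.eq_empty_of_forall_notMem
        rintro A ⟨hsn, -⟩
        have := hnum.hK
        rw [← hsn] at this
        exact hk this
      rw [e, hemp, Set.union_empty]
      exact ⟨h1, by rw [aa_irrel hk']; exact h2, h3⟩
  · have e : NextI t0 n0 k Fm n = Fm n := by unfold NextI; rw [if_neg hact]
    rw [e]
    refine ⟨h1, h2.trans ?_, h3⟩
    exact Nat.pow_le_pow_right (by norm_num) (Nat.pow_le_pow_right (by norm_num) (aa_anti k n))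

theorem bdd_clI {t0 : ℕ → ℕ} {n0 : ℕ} {fin : Fam} {top : ℕ} (h16 : 16 ≤ n0)
    (hK : ∀ k, Act t0 k → NumI n0 k) (hF : Bdd n0 top fin) :
    ∀ r ≤ top, Bdd n0 (top - r) (ClI t0 n0 fin top r) := by
  intro r
  induction r with
  | zero => intro _; exact hF
  | succ r ih =>
    intro hr
    have h := ih (by omega)
    have e : top - r = (top - (r + 1)) + 1 := by omega
    rw [e] at h
    exact bdd_nextI h16 (hK _) h

/-- the derived families are empty at high levels -/
theorem clI_empty (t0 : ℕ → ℕ) (n0 N top : ℕ) :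
    ∃ Nh, ∀ n, Nh < n → ClI t0 n0 (FinF N) top top n = ∅ := by
  have key : ∀ r : ℕ, ∃ Nh, ∀ n, Nh < n → ClI t0 n0 (FinF N) top r n = ∅ := by
    intro r
    induction r with
    | zero =>
      refine ⟨N, fun n hn => ?_⟩
      rw [Set.eq_empty_iff_forall_notMem]
      rintro A ⟨h1, _⟩
      omega
    | succ r ih =>
      obtain ⟨Nh, hNh⟩ := ih
      refine ⟨max Nh (sn (top - (r + 1))), fun n hn => ?_⟩
      have h1 : Nh < n := lt_of_le_of_lt (le_max_left _ _) hn
      have h2 : sn (top - (r + 1)) < n := lt_of_le_of_lt (le_max_right _ _) hn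
      have h3 := hNh n h1
      show NextI t0 n0 (top - (r + 1)) (ClI t0 n0 (FinF N) top r) n = ∅
      have hsim : SimI (top - (r + 1)) n (ClI t0 n0 (FinF N) top r n) = ∅ := by
        rw [h3, Set.eq_empty_iff_forall_notMem]
        rintro A ⟨B, hB, _⟩
        exact hB
      have hcmp : CmpI n0 (top - (r + 1)) (ClI t0 n0 (FinF N) top r) n = ∅ := by
        rw [Set.eq_empty_iff_forall_notMem]
        rintro A ⟨h4, _⟩
        omega
      unfold NextI
      split_ifs
      · rw [hsim, hcmp, Set.empty_union]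
      · rw [h3, hcmp, Set.empty_union]
      · exact h3
  exact key top

theorem sM_le_alen (k : ℕ) (w : Str) (hw : w ∈ ISet k) : sM k ≤ alen (se k + 1) w := by
  have h1 := (iset_length hw).1
  have h2 : 2 ≤ sm k := stb_sm_ge k
  unfold alen
  calc sM k ≤ w.length + 2 := by omega
    _ ≤ (w.length + 2) ^ ((se k + 1) ^ 2) := Nat.le_self_pow (by positivity) _

/-- All stages. -/
theorem iterateI (F : ℕ → Lang → Lang) {t0 : ℕ → ℕ} {n0 : ℕ} {fin : Fam} {top : ℕ} (h16 : 16 ≤ n0)
    (hK : ∀ k, Act t0 k → NumI n0 k) (hF : Bdd n0 top fin) (S : Sec)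
    (h0 : Def n0 0 S (orc S fun _ _ => []) (ClI t0 n0 fin top top)) :
    ∀ k ≤ top, ∃ Tab : ℕ → Str → Str, Def n0 k S (orc S Tab) (ClI t0 n0 fin top (top - k)) ∧
      (∀ k' < k, Act t0 k' → GoalI F S k' (orc S Tab) Tab) ∧
      ∀ e z, (Tab e z).length ≤ alen e z := by
  intro k
  induction k with
  | zero =>
    intro _
    exact ⟨fun _ _ => [], h0, fun k' hk' => absurd hk' (Nat.not_lt_zero _),
      fun e z => Nat.zero_le _⟩
  | succ k ih =>
    intro hk
    obtain ⟨Tab, hdef, hgoal, hlen⟩ := ih (by omega)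
    have e : top - k = (top - (k + 1)) + 1 := by omega
    have hcl : ClI t0 n0 fin top (top - k) =
        NextI t0 n0 k (ClI t0 n0 fin top (top - (k + 1))) := by
      rw [e]
      have e2 : top - (top - (k + 1) + 1) = k := by omega
      show NextI t0 n0 (top - (top - (k + 1) + 1)) _ = _
      rw [e2]
    rw [hcl] at hdef
    by_cases hact : Act t0 k
    · have h5 : 5 ≤ sj k := hact.1
      have h2 : 2 * sj k ≤ su k := hact.2.1
      have hB : Bdd n0 (k + 1) (ClI t0 n0 fin top (top - (k + 1))) := by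
        have := bdd_clI h16 hK hF (top - (k + 1)) (by omega)
        have e3 : top - (top - (k + 1)) = k + 1 := by omega
        rwa [e3] at this
      obtain ⟨T, hT1, hT2⟩ := step_stageI F h16 hact (hK k hact) hB hdef
      refine ⟨updI Tab k T, hT1, ?_, ?_⟩
      · intro k' hk' hact'
        rcases Nat.lt_succ_iff_lt_or_eq.1 hk' with h | h
        · refine goalI_congr hact'.1 hact'.2.1 (O := orc S Tab) (Tab := Tab) ?_ ?_ ?_
            (hgoal k' h hact')
          · intro w hw
            exact (orc_lowI S Tab k T h5 h2 w (hw.trans_le (sD_mono h.le))).symm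
          · intro z hz
            exact (updI_low Tab k' k T h hact'.1 hact'.2.1 h5 h2 z hz).symm
          · intro w hw
            exact (updI_other_inv Tab k' k T h.ne hact'.1 hact'.2.1 h5 h2 w hw).symm
        · subst h
          exact hT2
      · intro e z
        rcases updI_length Tab k T e z with h | ⟨rfl, hz, h⟩ | ⟨rfl, hz, h⟩
        · rw [h]; exact hlen e z
        · exact h.trans (qb_le_alen k h5 h2 z hz)
        · exact h.le.trans (sM_le_alen k z hz)
    · have e4 : NextI t0 n0 k (ClI t0 n0 fin top (top - (k + 1))) =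
          ClI t0 n0 fin top (top - (k + 1)) := by
        funext n
        unfold NextI
        rw [if_neg hact]
      rw [e4] at hdef
      refine ⟨Tab, ?_, ?_, hlen⟩
      · intro n hn A hA
        exact (Nat.mul_le_mul_right _ (Del_mono k n)).trans_lt (hdef n hn A hA)
      · intro k' hk' hact'
        rcases Nat.lt_succ_iff_lt_or_eq.1 hk' with h | h
        · exact hgoal k' h hact'
        · subst h
          exact absurd hact' hact

/-- The construction up to a horizon `N`. -/
theorem horizonI (F : ℕ → Lang → Lang) {t0 : ℕ → ℕ} {n0 : ℕ} (hN : ∀ n, n0 ≤ n → NumN n)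
    (hK : ∀ k, Act t0 k → NumI n0 k) (N : ℕ) :
    ∃ (S : Sec) (Tab : ℕ → Str → Str), (∀ e z, (Tab e z).length ≤ alen e z) ∧
      (∀ k < N, Act t0 k → GoalI F S k (orc S Tab) Tab) ∧
      ∀ n, n0 ≤ n → n ≤ N → SecAt S Tab n := by
  have h16 : 16 ≤ n0 := (hN n0 le_rfl).h16
  have hfin : Bdd n0 N (FinF N) := bdd_fin n0 N hN N
  obtain ⟨Nh, hNh⟩ := clI_empty t0 n0 N N
  have hB0 : Bdd n0 0 (ClI t0 n0 (FinF N) N N) := by
    have := bdd_clI h16 hK hfin N le_rfl
    rwa [Nat.sub_self] at this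
  obtain ⟨S, hS⟩ := base n0 Nh hN _ hB0 hNh
  obtain ⟨Tab, h1, h2, h3⟩ := iterateI F h16 hK hfin S hS N le_rfl
  refine ⟨S, Tab, h3, h2, ?_⟩
  intro n hn hnN A hA
  rw [Nat.sub_self] at h1
  obtain ⟨-, c, hc, w, hw, t, ht, rfl⟩ := hA
  refine lt_of_le_of_lt (Nat.mul_le_mul_right _ ?_) (h1 n hn _ ⟨hnN, c, hc, w, hw, t, ht, rfl⟩)
  exact Nat.pow_le_pow_right (by norm_num) (Nat.le_add_right _ _)

/-- The limit. -/
theorem goals_allI (F : ℕ → Lang → Lang) :
    ∃ (t0 : ℕ → ℕ) (n0 : ℕ) (S : Sec) (Tab : ℕ → Str → Str),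
      (∀ e z, (Tab e z).length ≤ alen e z) ∧
      (∀ k, Act t0 k → GoalI F S k (orc S Tab) Tab) ∧ ∀ n, n0 ≤ n → SecAt S Tab n := by
  obtain ⟨n0, hN⟩ := exists_n0
  obtain ⟨t0, hK⟩ := exists_t0I n0
  have hor := horizonI F hN hK
  choose Ss Ts h1 h2 h3 using hor
  obtain ⟨S, Tab, hlen, hag⟩ := compactness Ss Ts h1
  refine ⟨t0, n0, S, Tab, hlen, ?_, ?_⟩
  · intro k hact
    obtain ⟨b, hb⟩ := goalI_agree F k hact.1 hact.2.1
    obtain ⟨N, hbN, hN'⟩ := hag (max b (k + 1))
    have hag' : Agree b S (Ss N) Tab (Ts N) := by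
      refine ⟨fun n hn => hN'.1 n (hn.trans (le_max_left _ _)), fun e he z hz =>
        hN'.2 e (he.trans (le_max_left _ _)) z (hz.trans (le_max_left _ _))⟩
    exact hb _ _ _ _ hag' (h2 N k (by have := le_max_right b (k + 1); omega) hact)
  · intro n hn
    obtain ⟨b, hb⟩ := sec_agree n
    obtain ⟨N, hbN, hN'⟩ := hag (max b n)
    have hag' : Agree b S (Ss N) Tab (Ts N) := by
      refine ⟨fun n hn => hN'.1 n (hn.trans (le_max_left _ _)), fun e he z hz =>
        hN'.2 e (he.trans (le_max_left _ _)) z (hz.trans (le_max_left _ _))⟩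
    exact hb _ _ _ _ hag' (h3 N n hn (by have := le_max_right b n; omega))

end Pool.Agent.TD.IS
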