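import Pool.Agent.Lib_helper74.IS.Defs
import Pool.Agent.Lib_helper64.TDF.Main

/-!
# Local operators
-/

set_option autoImplicit false

namespace Pool.Agent.TD.IS

open Pool.Agent.CK

theorem strip_length (x : Str) : (strip x).length ≤ x.length := by
  induction x with
  | nil => simp [strip]
  | cons b x ih =>
    cases b
    · simp [strip]
    · simp only [strip, List.length_cons]
      omega

theorem strip_ones (m : ℕ) (z : Str) : strip (ones m ++ false :: z) = z := by
  induction m with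
  | zero => rfl
  | succ m ih => exact ih

theorem EL0_congr (F : ℕ → Lang → Lang) (n : ℕ) (O O' : Lang) (x : Str)
    (h : ∀ w : Str, w.length < (x.length + 2) ^ (n + 2) → O w = O' w) :
    EL0 F n O x = EL0 F n O' x := by
  unfold EL0
  have h1 : n.unpair.2 ≤ n := Nat.unpair_right_le n
  have h2 : n.unpair.2.unpair.2 ≤ n := (Nat.unpair_right_le _).trans h1
  split_ifs with h0 hl
  · apply NL_congr
    intro w hw
    exact h w (hw.trans_le (Nat.pow_le_pow_right (by omega) (by omega)))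
  · apply hl
    intro w hw
    apply h w
    refine lt_of_le_of_lt hw (Nat.pow_lt_pow_right (by omega) (by omega))
  · rfl

theorem EL_congr (F : ℕ → Lang → Lang) (n : ℕ) (O O' : Lang) (x : Str)
    (h : ∀ w : Str, w.length < (x.length + 2) ^ (n + 2) → O w = O' w) :
    EL F n O x = EL F n O' x := by
  unfold EL
  apply EL0_congr
  intro w hw
  apply h w
  refine hw.trans_le ?_
  have h1 : n.unpair.2 ≤ n := Nat.unpair_right_le n
  have h2 : (if n.unpair.1 = 0 then x else strip x).length ≤ x.length := by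
    split_ifs
    · exact le_rfl
    · exact strip_length x
  calc ((if n.unpair.1 = 0 then x else strip x).length + 2) ^ (n.unpair.2 + 2)
      ≤ (x.length + 2) ^ (n.unpair.2 + 2) := Nat.pow_le_pow_left (by omega) _
    _ ≤ (x.length + 2) ^ (n + 2) := Nat.pow_le_pow_right (by omega) (by omega)

theorem exists_EL0 {F : ℕ → Lang → Lang} (hF : ∀ i, PolyLocal (F i)) {O A : Lang}
    (hA : Cls F O A) : ∃ i, EL0 F i O = A := by
  rcases hA with h | ⟨i, rfl⟩
  · obtain ⟨i, hi⟩ := exists_NL h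
    refine ⟨Nat.pair 0 i, ?_⟩
    unfold EL0
    rw [Nat.unpair_pair]
    simp only [if_true]
    exact hi
  · obtain ⟨k, hk⟩ := hF i
    refine ⟨Nat.pair 1 (Nat.pair i k), ?_⟩
    unfold EL0
    rw [Nat.unpair_pair]
    simp only [Nat.unpair_pair, one_ne_zero, if_false]
    rw [if_pos]
    rw [Nat.unpair_pair]
    exact hk

theorem exists_EL {F : ℕ → Lang → Lang} (hF : ∀ i, PolyLocal (F i)) {O A : Lang}
    (hA : Cls F O A) : ∃ i, EL F i O = A := by
  obtain ⟨i, hi⟩ := exists_EL0 hF hA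
  refine ⟨Nat.pair 0 i, ?_⟩
  funext x
  unfold EL
  rw [Nat.unpair_pair]
  simp only [if_true]
  rw [hi]

theorem exists_EL_strip {F : ℕ → Lang → Lang} (hF : ∀ i, PolyLocal (F i)) {O A : Lang}
    (hA : Cls F O A) : ∃ i, EL F i O = fun x => A (strip x) := by
  obtain ⟨i, hi⟩ := exists_EL0 hF hA
  refine ⟨Nat.pair 1 i, ?_⟩
  funext x
  unfold EL
  rw [Nat.unpair_pair]
  simp only [one_ne_zero, if_false]
  rw [hi]

/-- as `nlC_congr` -/
theorem elC_congr (F : ℕ → Lang → Lang) {k : ℕ} {O O' : Lang} (h5 : 5 ≤ sj k)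
    (h2 : 2 * sj k ≤ su k) (h : ∀ w : Str, w.length < sD k → O w = O' w) (q : Str)
    (hq : q.length ≤ qb k) : EL F (iC (sj k)) O q = EL F (iC (sj k)) O' q := by
  apply EL_congr
  intro w hw
  apply h
  refine hw.trans_le ?_
  calc (q.length + 2) ^ (iC (sj k) + 2) ≤ (qb k + 2) ^ (iC (sj k) + 2) :=
        Nat.pow_le_pow_left (by omega) _
    _ ≤ (qb k + 2) ^ (sj k + 2) :=
        Nat.pow_le_pow_right (by omega) (by have := (gcg_unpair (sj k)).1; omega)
    _ ≤ sD k := qb_pow k h5 h2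

/-- as `nlN_congr` -/
theorem elN_congr (F : ℕ → Lang → Lang) {k : ℕ} {O O' : Lang} (h5 : 5 ≤ sj k)
    (h2 : 2 * sj k ≤ su k) (h : ∀ w : Str, w.length < sD k → O w = O' w) (z : Str)
    (hz : z ∈ ZSet k) : EL F (iN (sj k)) O z = EL F (iN (sj k)) O' z := by
  apply EL_congr
  intro w hw
  apply h
  refine hw.trans_le ?_
  have h1 : z.length + 2 < sM k := hz.2
  calc (z.length + 2) ^ (iN (sj k) + 2) ≤ (sM k) ^ (iN (sj k) + 2) :=
        Nat.pow_le_pow_left h1.le _
    _ ≤ (sM k) ^ (sj k + 2) :=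
        Nat.pow_le_pow_right (by omega) (by have := (gcg_unpair (sj k)).2.2; omega)
    _ ≤ sD k := sM_pow k h5 h2

end Pool.Agent.TD.IS
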