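import Pool.Agent.Lib_helper74.IS.All

/-!
# One stage of the construction
-/

set_option autoImplicit false

namespace Pool.Agent.TD.IS

open Pool.Agent.CK

/-- the table has only positions that are too long for the level `n` -/
theorem hits_irrelI {k n : ℕ} (h2 : 2 * sj k ≤ su k) (hk : KK n ≤ k) (O : Lang) (T : Z k → Q k)
    (v : X (2 * n) → Str) (A : X (2 * n) → DT Str)
    (hA : ∀ x, (A x).AllQ fun w => w.length ≤ dd n) :
    hits n v A (patchI (stg k) O T) = hits n v A O := by
  have hlt : dd n < sD k := by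
    by_contra hcon
    have := (rel_iff k n).2 (not_lt.1 hcon)
    omega
  have h : ∀ x, (A x).eval (patchI (stg k) O T) = (A x).eval O := by
    intro x
    apply DT.eval_congr _ _ (hA x)
    intro w hw
    cases hp : posK k w with
    | none => simp only [patchI, stg, hp]
    | some p =>
      have := posK_len h2 hp
      omega
  unfold hits
  simp only [h]

/-- If the whole table fits into the advice, every table is fine. -/
theorem def_smallI {k n n0 : ℕ} (hn : 3 * sM k ≤ n) (O : Lang) (T : Z k → Q k)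
    (Fm : Fam) (v : X (2 * n) → Str)
    (hdef : ∀ A' ∈ SimI k n (Fm n), Del k n * hits n v A' O < 4 ^ n)
    (A : X (2 * n) → DT Str) (hA : A ∈ Fm n) :
    Del (k + 1) n * hits n v A (patchI (stg k) O T) < 4 ^ n := by
  classical
  let ρ : List (Z k × Q k) := (Finset.univ : Finset (Z k)).toList.map fun z => (z, T z)
  have hρ : ρ.length ≤ ss k n := by
    have h1 : ρ.length = Fintype.card (Z k) := by
      simp [ρ]
    rw [h1]
    refine (card_Z k).trans ?_
    unfold ss
    apply Nat.pow_le_pow_right (by norm_num)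
    have : sM k ≤ n / 3 := by omega
    unfold aa
    omega
  have hlook := fun z => step_lookup T (Finset.univ : Finset (Z k)).toList z (by simp)
  let q0 : Q k := ⟨[], Nat.zero_le _⟩
  have hmem : (fun x => simI (stg k) [] (A x) ρ (List.replicate (dd n) q0)) ∈
      SimI k n (Fm n) := ⟨A, hA, ρ, hρ, List.replicate (dd n) q0, List.length_replicate, rfl⟩
  have h1 := hdef _ hmem
  have h2 : hits n v (fun x => simI (stg k) [] (A x) ρ (List.replicate (dd n) q0)) O =
      hits n v A (patchI (stg k) O T) :=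
    hits_congr v fun x => simI_full (stg k) [] O T (A x) ρ _ hlook
  rw [h2] at h1
  exact (Nat.mul_le_mul_right _ (Del_mono k n)).trans_lt h1

/-- The empty table can be simulated. -/
theorem def_constI {k n n0 : ℕ} (O : Lang) (Fm : Fam) (hF : Bdd n0 (k + 1) Fm) (h0 : n0 ≤ n)
    (v : X (2 * n) → Str)
    (hdef : ∀ A' ∈ SimI k n (Fm n), Del k n * hits n v A' O < 4 ^ n)
    (A : X (2 * n) → DT Str) (hA : A ∈ Fm n) :
    Del (k + 1) n * hits n v A (patchI (stg k) O fun _ => (⟨[], Nat.zero_le _⟩ : Q k)) < 4 ^ n := by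
  set q0 : Q k := ⟨[], Nat.zero_le _⟩ with hq0
  have hM : 0 < sM k := by unfold sM; positivity
  have hne : ∀ w l q i, (stg k).ps w = some (PosI.inv l q i) → q ≠ q0 := by
    intro w l q i h hq
    have := posK_inv h
    rw [hq, hq0] at this
    simp at this
    omega
  have hmem : (fun x => simI (stg k) [] (A x) [] (List.replicate (dd n) q0)) ∈
      SimI k n (Fm n) := ⟨A, hA, [], Nat.zero_le _, List.replicate (dd n) q0,
        List.length_replicate, rfl⟩
  have h1 := hdef _ hmem
  have h2 : hits n v (fun x => simI (stg k) [] (A x) [] (List.replicate (dd n) q0)) O =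
      hits n v A (patchI (stg k) O fun _ => q0) :=
    hits_congr v fun x => simI_const (stg k) [] O q0 hne (A x) [] (dd n)
      (by intro z q hz; simp at hz) (((hF n h0).2.2 A hA x).1)
  rw [h2] at h1
  exact (Nat.mul_le_mul_right _ (Del_mono k n)).trans_lt h1

theorem mem_nextI_sim {t0 : ℕ → ℕ} {n0 k n : ℕ} {Fm : Fam} (hact : Act t0 k) (hk : k < KK n)
    {A : X (2 * n) → DT Str} (hA : A ∈ SimI k n (Fm n)) : A ∈ NextI t0 n0 k Fm n := by
  unfold NextI
  rw [if_pos hact, if_pos hk]
  exact Or.inl hA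

theorem mem_nextI_irrel {t0 : ℕ → ℕ} {n0 k n : ℕ} {Fm : Fam} (hact : Act t0 k) (hk : KK n ≤ k)
    {A : X (2 * n) → DT Str} (hA : A ∈ Fm n) : A ∈ NextI t0 n0 k Fm n := by
  unfold NextI
  rw [if_pos hact, if_neg (by omega)]
  exact Or.inl hA

theorem mem_nextI_cmp {t0 : ℕ → ℕ} {n0 k n : ℕ} {Fm : Fam} (hact : Act t0 k)
    {A : X (2 * n) → DT Str} (hA : A ∈ CmpI n0 k Fm n) : A ∈ NextI t0 n0 k Fm n := by
  unfold NextI
  rw [if_pos hact]
  exact Or.inr hA

/-- the simulation in terms of truth values -/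
theorem simI_hits {k n : ℕ} (hn : 1 ≤ n) (v : X (2 * n) → Str) (hv : ∀ x, (v x).length = n)
    (A : X (2 * n) → DT Str) (x : X (2 * n)) (ρ : List (Z k × Q k)) (r : List (Q k)) :
    simI (stg k) false ((A x).map fun y => y == v x) ρ r =
      (simI (stg k) [] (A x) ρ r).map fun y => y == v x := by
  rw [simI_map]
  congr 1
  have hne : v x ≠ [] := by
    intro h
    have := hv x
    rw [h] at this
    simp at this
    omega
  symm
  simp only [beq_eq_false_iff_ne, ne_eq]
  exact fun h => hne h.symm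

/-- the numbers of one level -/
theorem step_num {k n : ℕ} (h16 : 16 ≤ n) (hn : n < 3 * sM k) (hk : k < KK n)
    (heps : NI k ≤ 2 ^ (3 * sM k)) (h : ℕ) (hh : Del k n * h < 4 ^ n) :
    (h : ℝ) < (4 : ℝ) ^ n / Del (k + 1) n / (1 + 1) -
      4 ^ n * (dd n * (1 / 2 ^ (3 * sM k) + 1 / (NI k : ℝ))) := by
  have hNI := NI_ge h16 hn
  have hD : 0 < Del (k + 1) n := Del_pos _ _
  have hDR : (0 : ℝ) < Del (k + 1) n := by exact_mod_cast hD
  have hd : 0 < dd n := by unfold dd; positivity
  have hdR : (0 : ℝ) < dd n := by exact_mod_cast hd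
  have hNIR : (8 : ℝ) * dd n * Del (k + 1) n ≤ NI k := by exact_mod_cast hNI
  have hpos : (0 : ℝ) < 8 * dd n * Del (k + 1) n := by positivity
  have hNI0 : (0 : ℝ) < NI k := hpos.trans_le hNIR
  have h1 : (1 : ℝ) / NI k ≤ 1 / (8 * dd n * Del (k + 1) n) :=
    one_div_le_one_div_of_le hpos hNIR
  have h2 : (1 : ℝ) / 2 ^ (3 * sM k) ≤ 1 / (8 * dd n * Del (k + 1) n) := by
    apply one_div_le_one_div_of_le hpos
    refine hNIR.trans ?_
    exact_mod_cast heps
  have h4 : (0 : ℝ) < 4 ^ n := by positivity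
  have h5 : (dd n : ℝ) * (1 / 2 ^ (3 * sM k) + 1 / (NI k : ℝ)) ≤ 1 / (4 * Del (k + 1) n) := by
    calc (dd n : ℝ) * (1 / 2 ^ (3 * sM k) + 1 / (NI k : ℝ))
        ≤ dd n * (1 / (8 * dd n * Del (k + 1) n) + 1 / (8 * dd n * Del (k + 1) n)) := by
          apply mul_le_mul_of_nonneg_left _ hdR.le
          linarith
      _ = 1 / (4 * Del (k + 1) n) := by
          field_simp
          norm_num
  have h6 : (4 : ℝ) ^ n * (dd n * (1 / 2 ^ (3 * sM k) + 1 / (NI k : ℝ))) ≤
      4 ^ n * (1 / (4 * Del (k + 1) n)) := mul_le_mul_of_nonneg_left h5 h4.le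
  have h7 : (4 : ℝ) * Del (k + 1) n * h < 4 ^ n := by
    rw [Del_step hk] at hh
    exact_mod_cast hh
  have h8 : (h : ℝ) < 4 ^ n / (4 * Del (k + 1) n) := by
    rw [lt_div_iff₀ (by positivity)]
    linarith
  have h9 : (4 : ℝ) ^ n / Del (k + 1) n / (1 + 1) - 4 ^ n * (1 / (4 * Del (k + 1) n)) =
      4 ^ n / (4 * Del (k + 1) n) := by
    field_simp
    norm_num
  linarith

/-- One active stage. -/
theorem step_stageI (F : ℕ → Lang → Lang) {t0 : ℕ → ℕ} {n0 k : ℕ} {Fm : Fam} {S : Sec} {Tab : ℕ → Str → Str}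
    (h16 : 16 ≤ n0) (hact : Act t0 k) (hK : NumI n0 k) (hF : Bdd n0 (k + 1) Fm)
    (hdef : Def n0 k S (orc S Tab) (NextI t0 n0 k Fm)) :
    ∃ T : Z k → Q k, Def n0 (k + 1) S (orc S (updI Tab k T)) Fm ∧
      GoalI F S k (orc S (updI Tab k T)) (updI Tab k T) := by
  classical
  have h5 : 5 ≤ sj k := hact.1
  have h2 : 2 * sj k ≤ su k := hact.2.1
  set O := orc S Tab with hO
  -- a table for which the levels `n < 3 * sM k` are fine
  have main : ∀ T : Z k → Q k, (∀ n, n0 ≤ n → n < 3 * sM k → k < KK n → ∀ A ∈ Fm n,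
      Del (k + 1) n * hits n (vv S n) A (patchI (stg k) O T) < 4 ^ n) →
      Def n0 (k + 1) S (orc S (updI Tab k T)) Fm := by
    intro T hT n hn A hA
    rw [orc_updI S Tab k T h5]
    by_cases hk : k < KK n
    · by_cases hM : n < 3 * sM k
      · exact hT n hn hM hk A hA
      · exact def_smallI (n0 := n0) (not_lt.1 hM) O T Fm (vv S n)
          (fun A' hA' => hdef n hn A' (mem_nextI_sim hact hk hA')) A hA
    · rw [hits_irrelI h2 (not_lt.1 hk) O T (vv S n) A fun x => ((hF n hn).2.2 A hA x).2]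
      have h1 := hdef n hn A (mem_nextI_irrel hact (not_lt.1 hk) hA)
      exact (Nat.mul_le_mul_right _ (Del_mono k n)).trans_lt h1
  have hlow : ∀ T : Z k → Q k, ∀ w : Str, w.length < sD k → O w = orc S (updI Tab k T) w :=
    fun T w hw => (orc_lowI S Tab k T h5 h2 w hw).symm
  have hlenT : ∀ T : Z k → Q k, ∀ z ∈ ZSet k, (updI Tab k T (se k) z).length ≤ qb k := by
    intro T z hz
    rw [updI_self Tab k T ⟨z, hz⟩]
    exact (T ⟨z, hz⟩).2
  by_cases hcor : CorrW F S k O
  · -- the reduction is correct: hard core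
    obtain ⟨Rs, hRs, hRs2⟩ := avoid_card Tab k
    obtain ⟨ν, hν, hc, hsm, hD⟩ := hardpairI F n0 k Fm S O hcor Rs hRs
      (fun A hA => hdef (sn k) hK.hn0 A (mem_nextI_cmp hact hA))
    set κ : Z k → Bool := fun z => EL F (iN (sj k)) O z.1 with hκ
    have hM1 : 1 ≤ sM k := Nat.one_le_two_pow
    have hcZ : (Fintype.card (Z k) : ℝ) ≤ 2 ^ sM k := by exact_mod_cast card_Z k
    have hp3 : (2 : ℝ) ^ sM k * (1 / 2 ^ (4 * sM k)) = 1 / 2 ^ (3 * sM k) := by
      rw [mul_one_div, div_eq_div_iff (by positivity) (by positivity), ← pow_add, one_mul]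
      congr 1
      ring
    obtain ⟨T, hT1, hTinj, hT2⟩ := table_stage (stg k) O ν hν κ (1 / 2 ^ (3 * sM k))
      (1 / (NI k : ℝ)) (1 / 2 ^ (4 * sM k)) (by positivity) (by positivity) (by positivity)
      (by
        intro l q
        calc ∑ z with (stg k).ln z = l, ν (κ z) q
            ≤ ∑ z with (stg k).ln z = l, (1 : ℝ) / 2 ^ (4 * sM k) :=
              Finset.sum_le_sum fun z _ => hsm _ _
          _ ≤ ∑ z : Z k, (1 : ℝ) / 2 ^ (4 * sM k) := by
              apply Finset.sum_le_sum_of_subset_of_nonneg (Finset.filter_subset _ _)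
              intro z _ _
              positivity
          _ = Fintype.card (Z k) * (1 / 2 ^ (4 * sM k)) := by
              rw [Finset.sum_const, nsmul_eq_mul, Finset.card_univ]
          _ ≤ 2 ^ sM k * (1 / 2 ^ (4 * sM k)) :=
              mul_le_mul_of_nonneg_right hcZ (by positivity)
          _ = 1 / 2 ^ (3 * sM k) := hp3)
      (by
        intro z z' _
        calc ∑ q, ν (κ z) q * ν (κ z') q ≤ ∑ q, ν (κ z) q * (1 / 2 ^ (4 * sM k)) :=
              Finset.sum_le_sum fun q _ => mul_le_mul_of_nonneg_left (hsm _ _) ((hν _).1 q)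
          _ = 1 / 2 ^ (4 * sM k) := by rw [← Finset.sum_mul, (hν _).2, one_mul])
      (by
        have e1 : (Fintype.card (Z k) : ℝ) ^ 2 ≤ (2 ^ sM k) ^ 2 :=
          pow_le_pow_left₀ (by positivity) hcZ 2
        have e2 : ((2 : ℝ) ^ sM k) ^ 2 * (1 / 2 ^ (4 * sM k)) ≤ 1 / 2 := by
          rw [mul_one_div, div_le_div_iff₀ (by positivity) (by positivity), ← pow_mul,
            ← pow_succ, one_mul]
          exact pow_le_pow_right₀ (by norm_num) (by omega)
        exact (mul_le_mul_of_nonneg_right e1 (by positivity)).trans e2)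
      (3 * sM k) (Xf := fun n => X (2 * n)) (α := fun n => X (2 * n) → DT Str)
      (fun n => if n0 ≤ n ∧ k < KK n then Fm n else ∅)
      (fun n A x => (A x).map fun y => y == vv S n x)
      (fun n => 2 ^ aa (k + 1) n) dd (fun n => 2 ^ aa (k + 1) n + n + 2 + 1)
      (fun n => (4 : ℝ) ^ n / Del (k + 1) n) (fun _ => 1)
      (by
        intro n hn
        by_cases h : n0 ≤ n ∧ k < KK n
        · simp only [h, and_self, if_true]
          exact ⟨(hF n h.1).1, (hF n h.1).2.1⟩
        · rw [if_neg h]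
          exact ⟨Set.finite_empty, by simp⟩)
      (by
        intro n hn A hA x
        by_cases h : n0 ≤ n ∧ k < KK n
        · rw [if_pos h] at hA
          rw [DT.depth_map]
          exact ((hF n h.1).2.2 A hA x).1
        · rw [if_neg h] at hA
          exact absurd hA (Set.notMem_empty _))
      (fun n _ => one_pos)
      (by
        intro n _
        norm_num
        exact pow_lt_pow_right₀ (by norm_num) (by omega))
      (by
        intro n hn A hA x ρ pre post hρ hpre hpost
        by_cases h : n0 ≤ n ∧ k < KK n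
        · rw [if_pos h] at hA
          have hρ' : ρ.length ≤ ss k n := hρ.trans (fpr_len k n (by omega))
          have h1 := hD ⟨A x, vv S n x, ρ, pre, post⟩ ⟨n, h.1, hn, h.2, ⟨A, hA, x, rfl⟩,
            vv_length S n x, hρ', hpre, hpost⟩
          simp only [simI_hits (by omega : 1 ≤ n) (vv S n) (vv_length S n)]
          exact h1
        · rw [if_neg h] at hA
          exact absurd hA (Set.notMem_empty _))
      (by
        intro n hn A hA ρ r hρ hr
        by_cases h : n0 ≤ n ∧ k < KK n
        · rw [if_pos h] at hA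
          have hρ' : ρ.length ≤ ss k n := hρ.trans (fpr_len k n (by omega))
          have h1 := hdef n h.1 _ (mem_nextI_sim hact h.2 ⟨A, hA, ρ, hρ', r, hr, rfl⟩)
          have h3 := step_num (by omega) hn h.2 hK.heps _ h1
          have h4 : (hits n (vv S n) (fun x => simI (stg k) [] (A x) ρ r) O : ℝ) =
              ∑ x, ind ((simI (stg k) false ((A x).map fun y => y == vv S n x) ρ r).eval O) := by
            rw [fpr_hits]
            refine Finset.sum_congr rfl fun x _ => ?_
            rw [simI_hits (by omega : 1 ≤ n) (vv S n) (vv_length S n)]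
          have hcard : (Fintype.card (X (2 * n)) : ℝ) = 4 ^ n := by
            rw [card_X, pow_mul]
            norm_num
          rw [hcard, ← h4]
          exact h3
        · rw [if_neg h] at hA
          exact absurd hA (Set.notMem_empty _))
    refine ⟨T, main T ?_, ?_⟩
    · intro n hn hM hk A hA
      have h := hT2 n hM A (by rw [if_pos ⟨hn, hk⟩]; exact hA)
      rw [← fpr_hits, lt_div_iff₀ (by exact_mod_cast Del_pos (k + 1) n)] at h
      have h' : ((Del (k + 1) n * hits n (vv S n) A (patchI (stg k) O T) : ℕ) : ℝ) <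
          ((4 ^ n : ℕ) : ℝ) := by
        push_cast
        linarith
      exact_mod_cast h'
    · refine goalI_congr h5 h2 (hlow T) (Tab := updI Tab k T) (fun z _ => rfl)
        (fun w _ => rfl) ⟨hlenT T, fun w hw => updI_inv Tab k T w hw, ?_⟩
      intro _ z hz
      have hz1 := hc _ _ (hT1 ⟨z, hz⟩)
      have hz2 := hRs2 _ hz1.2
      rw [updI_self Tab k T ⟨z, hz⟩]
      refine ⟨hz1.1, hz2.1, ?_⟩
      intro z' hz' he
      by_cases hzs : sm k ≤ z'.length + 2
      · have hmem : z' ∈ ZSet k := ⟨hzs, hz'⟩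
        rw [updI_self Tab k T ⟨z', hmem⟩] at he
        have := hTinj (Subtype.ext he)
        exact congrArg Subtype.val this
      · rw [updI_short Tab k T z' (by omega)] at he
        exact absurd he (hz2.2 z' (by omega))
  · -- the reduction is not correct: empty table
    refine ⟨fun _ => ⟨[], Nat.zero_le _⟩, main _ ?_, hlenT _, fun w hw => updI_inv Tab k _ w hw, ?_⟩
    · intro n hn hM hk A hA
      exact def_constI O Fm hF hn (vv S n)
        (fun A' hA' => hdef n hn A' (mem_nextI_sim hact hk hA')) A hA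
    · intro h
      exact absurd ((corrW_congr h5 h2 (hlow _)).2 h) hcor

end Pool.Agent.TD.IS
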